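import Pool.Agent.Helper68.BU.Defs2
import Pool.Agent.Helper67.SQ4.SEQw
import Pool.Agent.Helper42.SQ.HTg
import Pool.Agent.Helper27.TOW.SEQT
import Pool.Agent.Helper68.BU.COEU
import Pool.Agent.Helper64.BU.HC

/-!
# BU, block BU10c: points in towers, uniformly in the forms

The proof is that of `fin_it` (ZS/FINi), from `core_eu`, with slow coefficients.
-/

set_option autoImplicit false
set_option linter.unusedSectionVars false

namespace Pool.Agent.SQ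

open NumberField Filter Module MvPolynomial
open Pool.Agent.Helper64.Vojta (Pl nv sn above)
open Pool.Agent.V2
open Pool.Agent.Chart (fld dg crd hgt)

universe u

section

variable {k : Type u} [Field k] [NumberField k]

private theorem val_crd_t {N : ℕ} (x : Fin (N + 1) → AlgebraicClosure k) (f : MvPolynomial (Fin (N + 1)) k) :
    ((aeval (crd x) f : fld x) : AlgebraicClosure k) = aeval x f := by
  have h1 := MvPolynomial.comp_aeval_apply (f := crd x) (fld x).val f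
  exact h1

private theorem val_y_t {N : ℕ} (x : Fin (N + 1) → AlgebraicClosure k) (y : Fin (N + 1) → gal x)
    (hy : ∀ j, (y j : AlgebraicClosure k) = x j) (f : MvPolynomial (Fin (N + 1)) k) :
    ((aeval y f : gal x) : AlgebraicClosure k) = aeval x f := by
  have h1 := MvPolynomial.comp_aeval_apply (f := y) (gal x).val f
  have h2 : (fun j => (gal x).val (y j)) = x := funext hy
  rw [h2] at h1
  exact h1

private theorem ne_iff_t {N : ℕ} (x : Fin (N + 1) → AlgebraicClosure k) (y : Fin (N + 1) → gal x)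
    (hy : ∀ j, (y j : AlgebraicClosure k) = x j) (f : MvPolynomial (Fin (N + 1)) k) : aeval y f = 0 ↔ aeval x f = 0 := by
  rw [← val_y_t x y hy f]
  exact ZeroMemClass.coe_eq_zero.symm

private theorem crd_iff_t {N : ℕ} (x : Fin (N + 1) → AlgebraicClosure k) (f : MvPolynomial (Fin (N + 1)) k) :
    aeval (crd x) f = 0 ↔ aeval x f = 0 := by
  rw [← val_crd_t x f]
  exact ZeroMemClass.coe_eq_zero.symm

/-- for fixed sets `T0 v` -/
private theorem fin_tu_aux {N n d q r : ℕ} (hr : 0 < r) (I : Ideal (MvPolynomial (Fin (N + 1)) k)) {ε : ℝ} (hε : 0 < ε)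
    (Q : (Fin q × Mns N d → k) → MvPolynomial (Fin (N + 1)) k)
    (hcoreQ : ∀ {G : Type} [Group G] [Fintype G] {D : SqG k G} (y : ∀ a, Fin (N + 1) → D.L a), Ptg D y →
      (∀ a, ∀ p ∈ I, aeval (y a) p = 0) → ∀ (c : ℕ → Fin q × Mns N d → k),
      (∀ t, SlowG D fun a => algebraMap k (D.L a) (c a t)) → (∀ a, aeval (y a) (Q (c a)) ≠ 0) →
      ∀ (S : Finset (Pl k)) (T0 : Pl k → Finset (Fin q)), (∀ v ∈ S, n + 1 ≤ (T0 v).card) →
      (∀ a, ∀ v ∈ S, ∀ J ⊆ T0 v, J.card = n + 1 → ∀ x : Fin (N + 1) → AlgebraicClosure k, (∀ p ∈ I, aeval x p = 0) →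
        (∀ i ∈ J, aeval x (tfrm (c a) i) = 0) → x = 0) →
      (∀ a, ∀ v ∈ S, ∀ i ∈ T0 v, aeval (y a) (tfrm (c a) i) ≠ 0) →
      ∀ (H : Subgroup G), H.IsSubnormal → (∀ n, ∀ h ∈ H, ∀ j, D.s n h (y n j) = y n j) →
        ∀ᶠ a in (D.U : Filter ℕ), ∑ v ∈ S, ∑ g, ∑ i ∈ T0 v, gam (D.s a) (D.N a) (y a) d (tfrm (c a) i) v g ≤
          H.index * (n + 1) * (d + ε / (r * (n + 1))) * D.H a)
    (S : Finset (Pl k)) (T0 : Pl k → Finset (Fin q)) (hT0 : ∀ v ∈ S, n + 1 ≤ (T0 v).card) :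
    ∃ C : ℝ, 0 ≤ C ∧ ∀ (c : Fin q × Mns N d → k), (∀ i, ∃ μ, c (i, μ) = 1) →
      (∀ v ∈ S, ∀ J ⊆ T0 v, J.card = n + 1 → ∀ x : Fin (N + 1) → AlgebraicClosure k, (∀ p ∈ I, aeval x p = 0) →
        (∀ i ∈ J, aeval x (tfrm c i) = 0) → x = 0) →
      ∀ x : Fin (N + 1) → AlgebraicClosure k, (∃ j, x j = 1) → (∀ p ∈ I, aeval x p = 0) → InTower r x →
        (∀ v ∈ S, ∀ i ∈ T0 v, aeval (crd x) (tfrm c i) ≠ 0) → aeval x (Q c) ≠ 0 →
        ∑ ν ∈ S, ∑ i ∈ T0 ν, lamP d (tfrm c i) ν x ≤ (r * (n + 1) * d + ε) * hgt x + C * (1 + ∑ i, hcf c i) := by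
  classical
  have hn1 : (0 : ℝ) < n + 1 := by positivity
  have hrR : (0 : ℝ) < r := by exact_mod_cast hr
  by_contra hcon
  have hbad : ∀ m : ℕ, ∃ (c : Fin q × Mns N d → k) (x : Fin (N + 1) → AlgebraicClosure k), (∀ i, ∃ μ, c (i, μ) = 1) ∧
      (∀ v ∈ S, ∀ J ⊆ T0 v, J.card = n + 1 → ∀ x : Fin (N + 1) → AlgebraicClosure k, (∀ p ∈ I, aeval x p = 0) →
        (∀ i ∈ J, aeval x (tfrm c i) = 0) → x = 0) ∧ (∃ j, x j = 1) ∧ (∀ p ∈ I, aeval x p = 0) ∧ InTower r x ∧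
        (∀ v ∈ S, ∀ i ∈ T0 v, aeval (crd x) (tfrm c i) ≠ 0) ∧ aeval x (Q c) ≠ 0 ∧
        (r * (n + 1) * d + ε) * hgt x + m * (1 + ∑ i, hcf c i) < ∑ ν ∈ S, ∑ i ∈ T0 ν, lamP d (tfrm c i) ν x := by
    intro m
    by_contra h
    apply hcon
    refine ⟨m, Nat.cast_nonneg m, fun c hc hgp x h1 h2 h3 h4 h5 => ?_⟩
    by_contra h6
    exact h ⟨c, x, hc, hgp, h1, h2, h3, h4, h5, not_le.1 h6⟩
  choose cc x hc1 hgp hx1 hxI hxr hxf hxQ hbig using hbad
  obtain ⟨G, gG, fG, H, φ, hφ, hHs, hHr, y, M, s, hy, hQ', hyH, hH, hl⟩ := exists_seq_t x hx1 hxr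
  set c : ℝ := (Fintype.card G : ℝ) with hc
  have hc0 : 0 < c := by
    rw [hc]
    exact_mod_cast Fintype.card_pos
  have hφa : ∀ a, a ≤ φ a := fun a => hφ.le_apply
  have hy1 : ∀ a, ∃ j, y a j = 1 := by
    intro a
    obtain ⟨j, hj⟩ := hx1 (φ a)
    refine ⟨j, Subtype.ext ?_⟩
    rw [hy a j, hj]
    rfl
  have hyx : ∀ a (p : MvPolynomial (Fin (N + 1)) k), aeval (y a) p = 0 ↔ aeval (x (φ a)) p = 0 :=
    fun a p => ne_iff_t _ _ (hy a) p
  have hyf : ∀ a, ∀ v ∈ S, ∀ i ∈ T0 v, aeval (y a) (tfrm (cc (φ a)) i) ≠ 0 := by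
    intro a v hv i hi h
    exact hxf (φ a) v hv i hi ((crd_iff_t _ _).2 ((hyx a _).1 h))
  have hh0 : ∀ a, 0 ≤ hgt (x a) := fun a => by
    unfold hgt
    exact div_nonneg (Height.logHeight_nonneg _) (Nat.cast_nonneg _)
  have hcf0 : ∀ a i, 0 ≤ hcf (cc a) i := fun a i => hcf_nonneg (hc1 a i)
  set Hc : ℕ → ℝ := fun a => ∑ i, hcf (cc (φ a)) i with hHc
  have hHc0 : ∀ a, 0 ≤ Hc a := fun a => Finset.sum_nonneg fun i _ => hcf0 _ i
  have hHci : ∀ a i, hcf (cc (φ a)) i ≤ Hc a := fun a i =>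
    Finset.single_le_sum (f := fun i => hcf (cc (φ a)) i) (fun i _ => hcf0 _ i) (Finset.mem_univ i)
  have hGX : ∀ a, ∀ v ∈ S, c * ∑ i ∈ T0 v, lamP d (tfrm (cc (φ a)) i) v (x (φ a)) =
      ∑ g, ∑ i ∈ T0 v, gam (s a) (M a) (y a) d (tfrm (cc (φ a)) i) v g := by
    intro a v hv
    rw [Finset.mul_sum, Finset.sum_comm]
    exact Finset.sum_congr rfl fun i hi => hl a v d (tfrm (cc (φ a)) i) (hxf _ v hv i hi)
  obtain ⟨K, hK0, hK⟩ := gam_sum_u G k N d q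
  have hup : ∀ a, c * ∑ v ∈ S, ∑ i ∈ T0 v, lamP d (tfrm (cc (φ a)) i) v (x (φ a)) ≤
      (S.card * q * d : ℝ) * (c * hgt (x (φ a))) + (S.card : ℝ) * (c * Hc a) + S.card * q * K := by
    intro a
    rw [Finset.mul_sum, Finset.sum_congr rfl fun v hv => hGX a v hv]
    have h1 : ∀ v ∈ S, ∑ g, ∑ i ∈ T0 v, gam (s a) (M a) (y a) d (tfrm (cc (φ a)) i) v g ≤
        q * (d * (c * hgt (x (φ a))) + K) + c * Hc a := by
      intro v hv
      rw [Finset.sum_comm]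
      have h2 : ∀ i ∈ T0 v, ∑ g, gam (s a) (M a) (y a) d (tfrm (cc (φ a)) i) v g ≤
          d * (c * hgt (x (φ a))) + c * hcf (cc (φ a)) i + K := by
        intro i hi
        have h3 := hK _ (s a) (M a) (hQ' a) (cc (φ a)) i (hc1 _ i) (y a) (hy1 a) (hyf a v hv i hi) {v}
        rw [Finset.sum_singleton, ← hH a] at h3
        exact h3
      refine (Finset.sum_le_sum h2).trans ?_
      refine (Finset.sum_le_sum_of_subset_of_nonneg (Finset.subset_univ _) fun i _ _ => ?_).trans (le_of_eq ?_)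
      · exact add_nonneg (add_nonneg (mul_nonneg (Nat.cast_nonneg _) (mul_nonneg hc0.le (hh0 _)))
          (mul_nonneg hc0.le (hcf0 _ i))) hK0
      rw [Finset.sum_add_distrib, Finset.sum_add_distrib, Finset.sum_const, Finset.sum_const, Finset.card_univ,
        Fintype.card_fin, nsmul_eq_mul, nsmul_eq_mul, ← Finset.mul_sum]
      ring
    refine (Finset.sum_le_sum h1).trans (le_of_eq ?_)
    rw [Finset.sum_const, nsmul_eq_mul]
    ring
  -- the key inequality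
  have hkey : ∀ a : ℕ, c * (((a : ℝ) - S.card) * (1 + Hc a)) ≤ (S.card * q * d + 1 : ℝ) * (c * hgt (x (φ a))) + S.card * q * K := by
    intro a
    have h2 := hup a
    have h3 := mul_lt_mul_of_pos_left (hbig (φ a)) hc0
    have h4 : 0 ≤ c * ((r * (n + 1) * d + ε) * hgt (x (φ a))) :=
      mul_nonneg hc0.le (mul_nonneg (by positivity) (hh0 _))
    have h5 : (a : ℝ) ≤ φ a := by exact_mod_cast hφa a
    have h6 : 0 ≤ c * hgt (x (φ a)) := mul_nonneg hc0.le (hh0 _)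
    have h7 : c * ((a : ℝ) * (1 + Hc a)) ≤ c * (φ a * (1 + Hc a)) :=
      mul_le_mul_of_nonneg_left (mul_le_mul_of_nonneg_right h5 (by linarith [hHc0 a])) hc0.le
    have h8 : c * (((a : ℝ) - S.card) * (1 + Hc a)) =
        c * ((a : ℝ) * (1 + Hc a)) - S.card * c - S.card * (c * Hc a) := by ring
    have h9 : 0 ≤ (S.card : ℝ) * c := mul_nonneg (Nat.cast_nonneg _) hc0.le
    have h10 : c * ((r * (n + 1) * d + ε) * hgt (x (φ a)) + φ a * (1 + Hc a)) =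
        c * ((r * (n + 1) * d + ε) * hgt (x (φ a))) + c * (φ a * (1 + Hc a)) := by ring
    have h11 : (S.card * q * d + 1 : ℝ) * (c * hgt (x (φ a))) =
        (S.card * q * d : ℝ) * (c * hgt (x (φ a))) + c * hgt (x (φ a)) := by ring
    rw [h10] at h3
    rw [h8, h11]
    linarith
  set B1 : ℝ := S.card * q * d + 1 with hB1
  have hB10 : 0 < B1 := by positivity
  set K2 : ℝ := S.card * q * K with hK2
  have hK20 : 0 ≤ K2 := by positivity
  have hH1 : Tendsto (fun a => Hg (s a) (M a) (y a)) atTop atTop := by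
    have h1 : ∀ᶠ a : ℕ in atTop, B1⁻¹ * (c * a - (c * S.card + K2)) ≤ Hg (s a) (M a) (y a) := by
      filter_upwards [eventually_ge_atTop S.card] with a ha
      rw [← hH a, inv_mul_le_iff₀ hB10]
      have h2 := hkey a
      have h3 : (0 : ℝ) ≤ (a : ℝ) - S.card := by
        have : (S.card : ℝ) ≤ a := by exact_mod_cast ha
        linarith
      have h4 : 0 ≤ c * (((a : ℝ) - S.card) * Hc a) := mul_nonneg hc0.le (mul_nonneg h3 (hHc0 a))
      have h5 : c * (((a : ℝ) - S.card) * (1 + Hc a)) = c * a - c * S.card + c * (((a : ℝ) - S.card) * Hc a) := by ring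
      linarith
    refine tendsto_atTop_mono' _ h1 ?_
    refine Tendsto.const_mul_atTop (inv_pos.2 hB10) ?_
    exact tendsto_atTop_add_const_right _ _ (tendsto_natCast_atTop_atTop.const_mul_atTop hc0)
  have hHcs : ∀ η : ℝ, 0 < η → ∀ᶠ a in atTop, Hc a ≤ η * Hg (s a) (M a) (y a) := by
    intro η hη
    have h2 : Tendsto (fun a : ℕ => c * η * ((a : ℝ) - S.card)) atTop atTop :=
      (tendsto_atTop_add_const_right _ _ tendsto_natCast_atTop_atTop).const_mul_atTop (mul_pos hc0 hη)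
    filter_upwards [h2.eventually_ge_atTop (B1 + 1), hH1.eventually_ge_atTop K2, eventually_gt_atTop S.card] with a h3 h4 h5
    have h6 : (0 : ℝ) < (a : ℝ) - S.card := by
      have : (S.card : ℝ) < a := by exact_mod_cast h5
      linarith
    have h7 := hkey a
    rw [hH a] at h7
    have h8 : c * (((a : ℝ) - S.card) * (1 + Hc a)) = c * ((a : ℝ) - S.card) + c * ((a : ℝ) - S.card) * Hc a := by ring
    have h9 : 0 < c * ((a : ℝ) - S.card) := mul_pos hc0 h6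
    have hHg0 : 0 ≤ Hg (s a) (M a) (y a) := by
      rw [← hH a]
      exact mul_nonneg hc0.le (hh0 _)
    have h11 : (B1 + 1) * Hg (s a) (M a) (y a) ≤ c * η * ((a : ℝ) - S.card) * Hg (s a) (M a) (y a) :=
      mul_le_mul_of_nonneg_right h3 hHg0
    have h12 : c * ((a : ℝ) - S.card) * Hc a ≤ c * ((a : ℝ) - S.card) * (η * Hg (s a) (M a) (y a)) := by
      have h13 : c * η * ((a : ℝ) - S.card) * Hg (s a) (M a) (y a) =
          c * ((a : ℝ) - S.card) * (η * Hg (s a) (M a) (y a)) := by ring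
      have h14 : (B1 + 1) * Hg (s a) (M a) (y a) = B1 * Hg (s a) (M a) (y a) + Hg (s a) (M a) (y a) := by ring
      linarith
    exact le_of_mul_le_mul_left h12 h9
  let D : SqG k G :=
    { U := hyperfilter ℕ
      L := fun a => gal (x (φ a))
      fL := fun a => inferInstance
      aL := fun a => inferInstance
      s := s
      N := M
      qs := hQ'
      H := fun a => Hg (s a) (M a) (y a)
      H1 := hH1.mono_left Nat.hyperfilter_le_atTop }
  let y' : ∀ a, Fin (N + 1) → D.L a := y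
  have hPt : Ptg D y' := ⟨hy1, fun a => rfl⟩
  have hyI : ∀ a, ∀ p ∈ I, aeval (y' a) p = 0 := fun a p hp => (hyx a p).2 (hxI _ p hp)
  have hyQ : ∀ a, aeval (y' a) (Q (cc (φ a))) ≠ 0 := fun a h => hxQ (φ a) ((hyx a _).1 h)
  have hslow : ∀ t, SlowG D fun a => algebraMap k (D.L a) (cc (φ a) t) := by
    rintro ⟨i, μ⟩ η hη
    have h1 : (D.U : Filter ℕ) ≤ atTop := Nat.hyperfilter_le_atTop
    filter_upwards [h1 (hHcs (η / c) (div_pos hη hc0))] with a ha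
    have h2 := htg_le_hcf (hQ' a) (hc1 (φ a) i) μ
    have h3 : c * Hc a ≤ η * Hg (s a) (M a) (y a) := by
      have h4 := mul_le_mul_of_nonneg_left ha hc0.le
      have h5 : c * (η / c * Hg (s a) (M a) (y a)) = η * Hg (s a) (M a) (y a) := by
        field_simp
      rwa [h5] at h4
    exact h2.trans ((mul_le_mul_of_nonneg_left (hHci a i) hc0.le).trans h3)
  obtain ⟨a, ha⟩ := (hcoreQ y' hPt hyI (fun a => cc (φ a)) hslow hyQ S T0 hT0 (fun a => hgp (φ a)) hyf H hHs hyH).exists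
  have hHa : D.H a = c * hgt (x (φ a)) := (hH a).symm
  have h1 : c * ∑ v ∈ S, ∑ i ∈ T0 v, lamP d (tfrm (cc (φ a)) i) v (x (φ a)) =
      ∑ v ∈ S, ∑ g, ∑ i ∈ T0 v, gam (D.s a) (D.N a) (y' a) d (tfrm (cc (φ a)) i) v g := by
    rw [Finset.mul_sum]
    exact Finset.sum_congr rfl fun v hv => hGX a v hv
  rw [← h1, hHa] at ha
  have h2 : ∑ v ∈ S, ∑ i ∈ T0 v, lamP d (tfrm (cc (φ a)) i) v (x (φ a)) ≤
      H.index * (n + 1) * (d + ε / (r * (n + 1))) * hgt (x (φ a)) := by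
    refine le_of_mul_le_mul_left (ha.trans (le_of_eq ?_)) hc0
    ring
  have h3 : H.index * (n + 1) * (d + ε / (r * (n + 1))) ≤ r * (n + 1) * d + ε := by
    have h4 : (H.index : ℝ) ≤ r := by exact_mod_cast hHr
    have h5 : (H.index : ℝ) * (n + 1) * (d + ε / (r * (n + 1))) ≤ r * (n + 1) * (d + ε / (r * (n + 1))) := by
      have : (0 : ℝ) ≤ d + ε / (r * (n + 1)) := by positivity
      gcongr
    refine h5.trans (le_of_eq ?_)
    field_simp
  have h4 := mul_le_mul_of_nonneg_right h3 (hh0 (φ a))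
  have h5 := hbig (φ a)
  have h6 : (0 : ℝ) ≤ φ a * (1 + Hc a) := mul_nonneg (Nat.cast_nonneg _) (by linarith [hHc0 a])
  have h7 : (0 : ℝ) ≤ φ a * (1 + ∑ i, hcf (cc (φ a)) i) := h6
  linarith

end

/-- **Points in towers, uniformly in the forms.** -/
theorem fin_tu {k : Type u} [Field k] [NumberField k] {N n d q r : ℕ} (hd : 0 < d) (hr : 0 < r)
    (I : Ideal (MvPolynomial (Fin (N + 1)) k)) [I.IsPrime] (hI : ∀ p ∈ I, ∀ m, homogeneousComponent m p ∈ I)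
    (hdim : Algebra.trdeg k (MvPolynomial (Fin (N + 1)) k ⧸ I) = n + 1) {ε : ℝ} (hε : 0 < ε) :
    ∃ (M : ℕ) (Q : (Fin q × Mns N d → k) → MvPolynomial (Fin (N + 1)) k),
      (∀ c, Q c ∉ I ∧ ∃ e ≤ M, (Q c).IsHomogeneous e) ∧
      ∀ S : Finset (Pl k), ∃ C : ℝ, ∀ (c : Fin q × Mns N d → k), (∀ i, ∃ μ, c (i, μ) = 1) →
      ∀ T0 : Pl k → Finset (Fin q), (∀ v ∈ S, n + 1 ≤ (T0 v).card) →
      (∀ v ∈ S, ∀ J ⊆ T0 v, J.card = n + 1 → ∀ x : Fin (N + 1) → AlgebraicClosure k, (∀ p ∈ I, aeval x p = 0) →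
        (∀ i ∈ J, aeval x (tfrm c i) = 0) → x = 0) →
      ∀ x : Fin (N + 1) → AlgebraicClosure k, (∃ j, x j = 1) → (∀ p ∈ I, aeval x p = 0) → InTower r x →
        (∀ v ∈ S, ∀ i ∈ T0 v, aeval (crd x) (tfrm c i) ≠ 0) → aeval x (Q c) ≠ 0 →
        ∑ ν ∈ S, ∑ i ∈ T0 ν, lamP d (tfrm c i) ν x ≤
          (r * (n + 1) * d + ε) * hgt x + C * (1 + ∑ i, hcf c i) := by
  classical
  have hn1 : (0 : ℝ) < n + 1 := by positivity
  have hrR : (0 : ℝ) < r := by exact_mod_cast hr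
  obtain ⟨M, Q, hQ, hcoreQ⟩ := core_eu (n := n) q hd I hI hdim (Ξ := Unit) (θ := fun _ => 1) (fun _ => zero_le_one)
    (fun _ => le_rfl) (ξ₁ := ()) rfl one_pos le_rfl (ε := ε / (r * (n + 1))) (by positivity)
  refine ⟨M, Q, hQ, fun S => ?_⟩
  have key : ∀ τ : S → Finset (Fin q), ∃ C : ℝ, 0 ≤ C ∧ ∀ (c : Fin q × Mns N d → k), (∀ i, ∃ μ, c (i, μ) = 1) →
      ∀ T0 : Pl k → Finset (Fin q), (∀ v : S, T0 v = τ v) → (∀ v ∈ S, n + 1 ≤ (T0 v).card) →
      (∀ v ∈ S, ∀ J ⊆ T0 v, J.card = n + 1 → ∀ x : Fin (N + 1) → AlgebraicClosure k, (∀ p ∈ I, aeval x p = 0) →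
        (∀ i ∈ J, aeval x (tfrm c i) = 0) → x = 0) →
      ∀ x : Fin (N + 1) → AlgebraicClosure k, (∃ j, x j = 1) → (∀ p ∈ I, aeval x p = 0) → InTower r x →
        (∀ v ∈ S, ∀ i ∈ T0 v, aeval (crd x) (tfrm c i) ≠ 0) → aeval x (Q c) ≠ 0 →
        ∑ ν ∈ S, ∑ i ∈ T0 ν, lamP d (tfrm c i) ν x ≤ (r * (n + 1) * d + ε) * hgt x + C * (1 + ∑ i, hcf c i) := by
    intro τ
    let T1 : Pl k → Finset (Fin q) := fun v => if h : v ∈ S then τ ⟨v, h⟩ else ∅
    have hT1 : ∀ T0 : Pl k → Finset (Fin q), (∀ v : S, T0 v = τ v) → ∀ v ∈ S, T0 v = T1 v := by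
      intro T0 h v hv
      show T0 v = if h : v ∈ S then τ ⟨v, h⟩ else ∅
      rw [dif_pos hv]
      exact h ⟨v, hv⟩
    by_cases hc : ∀ v ∈ S, n + 1 ≤ (T1 v).card
    · obtain ⟨C, hC0, hC⟩ := fin_tu_aux hr I hε Q
        (fun y h1 h2 c h3 h4 S T0 h5 h6 h7 => (hcoreQ y h1 h2 c h3 h4 S T0 h5 h6 h7).2) S T1 hc
      refine ⟨C, hC0, fun c h1 T0 h2 _ h4 x h5 h6 h7 h8 h9 => ?_⟩
      have e := hT1 T0 h2
      rw [Finset.sum_congr rfl fun ν hν => by rw [e ν hν]]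
      refine hC c h1 (fun v hv J hJ => h4 v hv J (by rwa [e v hv])) x h5 h6 h7 (fun v hv i hi => h8 v hv i ?_) h9
      rwa [e v hv]
    · refine ⟨0, le_rfl, fun c _ T0 h2 h3 => ?_⟩
      exfalso
      apply hc
      intro v hv
      rw [← hT1 T0 h2 v hv]
      exact h3 v hv
  choose C hC0 hC using key
  refine ⟨∑ τ, C τ, fun c h1 T0 h2 h3 x h4 h5 h6 h7 h8 => ?_⟩
  refine (hC (fun v => T0 v) c h1 T0 (fun v => rfl) h2 h3 x h4 h5 h6 h7 h8).trans ?_
  have h9 : C (fun v => T0 v) ≤ ∑ τ, C τ := Finset.single_le_sum (fun τ _ => hC0 τ) (Finset.mem_univ _)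
  have h10 : 0 ≤ 1 + ∑ i, hcf c i := add_nonneg zero_le_one (Finset.sum_nonneg fun i _ => hcf_nonneg (h1 i))
  have h11 := mul_le_mul_of_nonneg_right h9 h10
  linarith

end Pool.Agent.SQ
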